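import Pool.Agent.helper17.RX.Spec

set_option autoImplicit false

namespace TP.TW

open DP MeasureTheory Finset

theorem PLX_aux1 (R : ℕ) (s ℓ : ℝ) (hs : 0 ≤ s) (hl : 0 ≤ ℓ) :
    (s + ℓ) ^ R ≤ (2 * (R : ℝ) + ℓ) ^ R * Real.exp (s / 2) := by
  rcases Nat.eq_zero_or_pos R with h | h
  · subst h
    simp only [pow_zero, one_mul]
    exact Real.one_le_exp (by positivity)
  · have hR : (0 : ℝ) < R := by exact_mod_cast h
    have h1 : s + ℓ ≤ (2 * (R : ℝ) + ℓ) * Real.exp (s / (2 * R)) := by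
      have h0 := Real.add_one_le_exp (s / (2 * (R : ℝ)))
      have h2 : (2 * (R : ℝ) + ℓ) * (s / (2 * R) + 1) ≤ (2 * (R : ℝ) + ℓ) * Real.exp (s / (2 * R)) :=
        mul_le_mul_of_nonneg_left h0 (by positivity)
      have h3 : (2 * (R : ℝ) + ℓ) * (s / (2 * R) + 1) = s + ℓ + 2 * R + ℓ * (s / (2 * R)) := by
        field_simp
        ring
      have h4 : 0 ≤ ℓ * (s / (2 * (R : ℝ))) := by positivity
      linarith
    have h5 : Real.exp (s / (2 * (R : ℝ))) ^ R = Real.exp (s / 2) := by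
      rw [← Real.exp_nat_mul]
      apply congrArg
      field_simp
    calc (s + ℓ) ^ R ≤ ((2 * (R : ℝ) + ℓ) * Real.exp (s / (2 * R))) ^ R :=
          pow_le_pow_left₀ (by positivity) h1 R
      _ = (2 * (R : ℝ) + ℓ) ^ R * Real.exp (s / 2) := by rw [mul_pow, h5]

theorem PLX_term (R : ℕ) (N p ℓ : ℝ) (hN : 3 ≤ N) (hl : 0 ≤ ℓ) (hp0 : 0 ≤ p) (hp1 : p ≤ 1) :
    p * (Real.log (1 / p) + ℓ) ^ R ≤
      p * ((2 * (R : ℝ) + 3) * (Real.log N + ℓ)) ^ R +
        (1 / N) * ((2 * (R : ℝ) + 3) * (Real.log N + ℓ)) ^ R := by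
  have hNpos : 0 < N := by linarith
  have hlog : 1 ≤ Real.log N := by
    rw [Real.le_log_iff_exp_le hNpos]
    have := Real.exp_one_lt_d9
    linarith
  have hB : 0 ≤ ((2 * (R : ℝ) + 3) * (Real.log N + ℓ)) ^ R := by
    apply pow_nonneg
    apply mul_nonneg
    · positivity
    · linarith
  rcases eq_or_lt_of_le hp0 with h0 | h0
  · rw [← h0]
    simp only [zero_mul, zero_add]
    apply mul_nonneg
    · positivity
    · exact hB
  · have hs : 0 ≤ Real.log (1 / p) := by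
      apply Real.log_nonneg
      rw [le_div_iff₀ h0]
      linarith
    have hps : p = Real.exp (-Real.log (1 / p)) := by
      rw [one_div, Real.log_inv, neg_neg, Real.exp_log h0]
    generalize Real.log (1 / p) = s at hs hps
    have hR0 : (0 : ℝ) ≤ R := Nat.cast_nonneg R
    rcases le_or_gt s (2 * Real.log N) with hc | hc
    · have h1 : s + ℓ ≤ (2 * (R : ℝ) + 3) * (Real.log N + ℓ) := by
        have h2 : 0 ≤ (R : ℝ) * (Real.log N + ℓ) := mul_nonneg hR0 (by linarith)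
        nlinarith
      have h3 : (s + ℓ) ^ R ≤ ((2 * (R : ℝ) + 3) * (Real.log N + ℓ)) ^ R :=
        pow_le_pow_left₀ (by linarith) h1 R
      have h4 : p * (s + ℓ) ^ R ≤ p * ((2 * (R : ℝ) + 3) * (Real.log N + ℓ)) ^ R :=
        mul_le_mul_of_nonneg_left h3 hp0
      have h5 : 0 ≤ (1 / N) * ((2 * (R : ℝ) + 3) * (Real.log N + ℓ)) ^ R :=
        mul_nonneg (by positivity) hB
      linarith
    · have h1 := PLX_aux1 R s ℓ hs hl
      have h2 : (2 * (R : ℝ) + ℓ) ^ R ≤ ((2 * (R : ℝ) + 3) * (Real.log N + ℓ)) ^ R := by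
        apply pow_le_pow_left₀ (by positivity)
        have h3 : 0 ≤ (R : ℝ) * (Real.log N - 1) := mul_nonneg hR0 (by linarith)
        have h4 : 0 ≤ (R : ℝ) * ℓ := mul_nonneg hR0 hl
        nlinarith
      have h3 : p * (s + ℓ) ^ R ≤ Real.exp (-(s / 2)) * (2 * (R : ℝ) + ℓ) ^ R := by
        calc p * (s + ℓ) ^ R ≤ p * ((2 * (R : ℝ) + ℓ) ^ R * Real.exp (s / 2)) :=
              mul_le_mul_of_nonneg_left h1 hp0
          _ = (p * Real.exp (s / 2)) * (2 * (R : ℝ) + ℓ) ^ R := by ring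
          _ = Real.exp (-(s / 2)) * (2 * (R : ℝ) + ℓ) ^ R := by
              rw [hps, ← Real.exp_add]
              ring_nf
      have h4 : Real.exp (-(s / 2)) ≤ 1 / N := by
        have h5 : Real.exp (-(s / 2)) ≤ Real.exp (-(Real.log N)) := by
          apply Real.exp_le_exp.mpr
          linarith
        rw [Real.exp_neg (Real.log N), Real.exp_log hNpos] at h5
        rw [one_div]
        exact h5
      have h5 : Real.exp (-(s / 2)) * (2 * (R : ℝ) + ℓ) ^ R ≤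
          (1 / N) * ((2 * (R : ℝ) + 3) * (Real.log N + ℓ)) ^ R :=
        mul_le_mul h4 h2 (by positivity) (by positivity)
      have h6 : 0 ≤ p * ((2 * (R : ℝ) + 3) * (Real.log N + ℓ)) ^ R := mul_nonneg hp0 hB
      linarith

theorem PLX : PLX_stmt := by
  intro R U p ℓ hl hp
  have hN : (3 : ℝ) ≤ (#U : ℝ) + 3 := by
    have : (0 : ℝ) ≤ (#U : ℝ) := Nat.cast_nonneg _
    linarith
  have hNpos : (0 : ℝ) < (#U : ℝ) + 3 := by linarith
  have hlog : 0 ≤ Real.log ((#U : ℝ) + 3) := Real.log_nonneg (by linarith)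
  have hB : 0 ≤ ((2 * (R : ℝ) + 3) * (Real.log ((#U : ℝ) + 3) + ℓ)) ^ R := by
    apply pow_nonneg
    apply mul_nonneg
    · positivity
    · linarith
  have h1 : ∑ z ∈ U, p z * (Real.log (1 / p z) + ℓ) ^ R ≤
      ∑ z ∈ U, (p z * ((2 * (R : ℝ) + 3) * (Real.log ((#U : ℝ) + 3) + ℓ)) ^ R +
        (1 / ((#U : ℝ) + 3)) * ((2 * (R : ℝ) + 3) * (Real.log ((#U : ℝ) + 3) + ℓ)) ^ R) :=
    Finset.sum_le_sum (fun z hz => PLX_term R _ (p z) ℓ hN hl (hp z hz).1 (hp z hz).2)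
  refine le_trans h1 ?_
  rw [Finset.sum_add_distrib, ← Finset.sum_mul, Finset.sum_const, nsmul_eq_mul, ← mul_assoc,
    ← add_mul]
  apply mul_le_mul_of_nonneg_right _ hB
  have h2 : (#U : ℝ) * (1 / ((#U : ℝ) + 3)) ≤ 1 := by
    rw [mul_one_div, div_le_one hNpos]
    linarith
  linarith

end TP.TW
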